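import Mathlib
import Pool.Agent.N750.HJ.Cn

/-!
# The Tate conjecture for the products of almost all hyperelliptic Jacobians with all varieties

**Theorem.** There is one set `E` of monic polynomials with integral coefficients, which contains at
most `O ((log H) ^ 2 H ^ (n - 1 / 3))` of the `(2 H + 1) ^ n` monic polynomials of degree `n` and height
at most `H`, for each odd `n ≥ 7`, with the following property. Let `F` be an algebraic closure of any
finitely generated field of characteristic zero, and `Z` any smooth projective variety over `F`. For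
all polynomials `f` of odd degree `≥ 7` outside `E`, with finitely many exceptions in each degree, let
`J f` be the Jacobian of the hyperelliptic curve `y ^ 2 = f (x)` over `F`. **Then for each finite set of
these polynomials with different splitting fields and all exponents `m f`, all the Tate classes
(`ℓ = 2`) of the variety `∏ (J f) ^ (m f) × Z` are linear combinations of the products of intersections
of divisors on `∏ (J f) ^ (m f)` with Tate classes of `Z`.** So the Tate conjecture for `ℓ = 2` and all
these varieties is equivalent to the Tate conjecture for `Z`.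

The finite set of exceptions is the set of the polynomials of height at most `C n` (`n` the degree),
where `C` depends only on the number field `M₀` of the algebraic numbers in the field `M` generated over
a field of definition `K` of `Z` by the action of the Galois group on `L / 2`, where `L` is the 2-adic
cohomology of `Z` modulo torsion.  If `2 ^ (d ^ 2 + 1) < n!` for the degrees `n` of the polynomials,
where `d` is the rank of `L`, then one can take `M = K`, so the same constants work for all these `Z`.

The second part of the theorem: almost all tuples of polynomials of given degrees have different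
splitting fields.

In the Lean statement `J f (F)` is the class group of the coordinate ring `F[x, y]` of the affine curve
(the curve has one point at infinity) with the action of the Galois group on the coefficients, `V` is
the rational 2-adic Tate module of `J = ∏ i, J (f i)`, and `W` is any finite dimensional 2-adic
representation of the Galois group of `K`, for instance `W = H ^ j (Z, ℚ_2) (c)`.  The alternating maps
`V ^ n → W` in `a` variables are the elements of `H ^ a (J ^ n) ⊗ W`.

The proof: for a number field `M₀` the primes which split completely in its Galois closure have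
positive density, and by a sieve almost all polynomials have the right factorisations modulo such primes
(irreducible, with one or `n - 2` linear factors), so that the Galois group over the Galois closure of
`M₀` is the symmetric group. A diagonal argument gives one exceptional set for all number fields. If
`A` is the Galois group of the algebraic numbers over the Galois closure of `M₀`, and `B` the one over
the splitting field of `g`, and `A ∩ B` fixes the roots of `f`, then the commutators of `A` and `B` fix
the roots of `f`; the group `A` acts on them as the full symmetric group, so `B` fixes them. Therefore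
different splitting fields remain different over `M₀`. Then the theorem of helper171 on Jacobians with
large Galois groups is applied over all fields `K`.
-/

set_option autoImplicit false

namespace Pool.Agent.Results.MP_640417_ag.AlmostAllJacobians

open Polynomial Pool.Agent.N171

/-- The splitting field of `f` in the field of complex numbers. -/
noncomputable def splittingField (f : ℤ[X]) : IntermediateField ℚ ℂ :=
  IntermediateField.adjoin ℚ (f.rootSet ℂ)

/-- For each odd `n ≥ 7`, the set `E` contains `O ((log H) ^ 2 H ^ (n - 1 / 3))` monic polynomials of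
degree `n` and height at most `H`. -/
def Sparse (E : Set ℤ[X]) : Prop :=
  ∀ n : ℕ, Odd n → 7 ≤ n → ∃ A : ℝ, ∀ H : ℕ, 2 ≤ H →
    (Nat.card {f : ℤ[X] // f ∈ E ∧ f.Monic ∧ f.natDegree = n ∧ ∀ k < n, |f.coeff k| ≤ H} : ℝ) ≤
      A * Real.log H ^ 2 * (H : ℝ) ^ ((n : ℝ) - 1 / 3)

/-- The polynomials over `K`. -/
noncomputable def polyOver {ι : Type} (K : Type) [Field K] (f : ι → ℤ[X]) (i : ι) : K[X] :=
  (f i).map (Int.castRingHom K)

/-- The representation on `W` has a stable lattice `L`, of rank `d`, over the 2-adic integers such that
the automorphisms over `M` act trivially on `L / 2`, or `2 ^ (d ^ 2 + 1)` is less than the factorials of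
the degrees of all the `f i`. -/
def TrivOver (M : Type) {K F ι W : Type} [Field K] [Field M] [Field F] [Algebra K F] [Algebra M F]
    [AddCommGroup W] [Module ℚ_[2] W] (f : ι → ℤ[X]) (τ : Representation ℚ_[2] (F ≃ₐ[K] F) W) :
    Prop :=
  ∃ (d : ℕ) (b : Module.Basis (Fin d) ℚ_[2] W), (∀ s, TrivMod b (τ s) 0) ∧
    ((∀ s : F ≃ₐ[K] F, (∀ m : M, s (algebraMap M F m) = algebraMap M F m) → TrivMod b (τ s) 1) ∨
      ∀ i, 2 ^ (d ^ 2 + 1) < (f i).natDegree.factorial)

/-- The Tate classes on the powers `V ^ n` with values in `W` are zero in odd degrees, and in even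
degrees they are the linear combinations of the forms `g • w`, where `g` is a wedge product of forms
`ω i (v p) (w q) + ω i (v q) (w p)` and `w` is a Tate class of `W`. -/
def Splits {k V W Γ Q : Type*} [Field k] [AddCommGroup V] [Module k V] [AddCommGroup W] [Module k W]
    [Group Γ] (ρ : Representation k Γ V) (χ : Γ →* k) (ω : Q → V →ₗ[k] V →ₗ[k] k)
    (τ : Representation k Γ W) : Prop :=
  (∀ (n a : ℕ) (f : (Fin n → V) [⋀^Fin a]→ₗ[k] W), Odd a → IsTateV ρ τ f → f = 0) ∧
  ∀ (n m : ℕ) (f : (Fin n → V) [⋀^Fin m × Fin 2]→ₗ[k] W),
    IsTateV ρ τ f ↔ f ∈ Submodule.span k {h | IsProdW χ τ ω h}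

/-- The Tate classes on the products of powers of the Jacobians of the curves `y ^ 2 = f i (x)` over
`K` with all `W` which are trivial modulo two over `M` (or have small rank). -/
def TateSplits {ι : Type} (f : ι → ℤ[X]) (K M F : Type) [Field K] [Field M]
    [Field F] [Algebra K F] [Algebra M F] : Prop :=
  ∃ (_ : ∀ i, HypP (polyOver K f i))
    (ω : ∀ i, Vt (JacP (polyOver K f i) F) →ₗ[ℚ_[2]] Vt (JacP (polyOver K f i) F) →ₗ[ℚ_[2]] ℚ_[2]),
    (∀ i, IsWeil (vRep (JacP (polyOver K f i) F) (F ≃ₐ[K] F)) (cycQ K F) (ω i)) ∧
    ∀ (W : Type) [AddCommGroup W] [Module ℚ_[2] W] (τ : Representation ℚ_[2] (F ≃ₐ[K] F) W),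
      TrivOver M f τ → Splits (vRep (JPi (polyOver K f) F) (F ≃ₐ[K] F)) (cycQ K F)
        (fun i => pullP (polyOver K f) F i (ω i)) τ

/-- **The Tate classes on the products of powers of almost all hyperelliptic Jacobians with all
varieties.** -/
theorem result :
    (∃ E : Set ℤ[X], Sparse E ∧
      ∀ (M₀ : Type) [Field M₀] [NumberField M₀], ∃ C : ℕ → ℕ,
        ∀ (ι : Type) [Finite ι] [Nonempty ι] (f : ι → ℤ[X]),
          (∀ i, f i ∉ E ∧ (f i).Monic ∧ Odd (f i).natDegree ∧ 7 ≤ (f i).natDegree ∧
            ∃ k < (f i).natDegree, (C (f i).natDegree : ℤ) < |(f i).coeff k|) →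
          (∀ i j, i ≠ j → splittingField (f i) ≠ splittingField (f j)) →
          ∀ (K M F : Type) [Field K] [Field M] [Field F] [Algebra M₀ M] [Algebra K M] [Algebra M F]
            [Algebra K F] [IsScalarTower K M F] [IsAlgClosure K F] [IsAlgClosure M F],
            (∀ y : M, IsAlgebraic M₀ y → y ∈ Set.range (algebraMap M₀ M)) →
              TateSplits f K M F) ∧
    ∀ (ι : Type) [Fintype ι] (n : ι → ℕ), (∀ i, 3 ≤ n i) → ∃ A : ℝ, ∀ H : ℕ, 2 ≤ H →
      (Nat.card {f : ι → ℤ[X] //
        (∀ i, (f i).Monic ∧ (f i).natDegree = n i ∧ ∀ k < n i, |(f i).coeff k| ≤ H) ∧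
        ∃ i j, i ≠ j ∧ splittingField (f i) = splittingField (f j)} : ℝ) ≤
          A * Real.log H * (H : ℝ) ^ (((∑ i, n i : ℕ) : ℝ) - 1 / 3) := by
  classical
  refine ⟨?_, ?_⟩
  · obtain ⟨E, hE, h1⟩ := Pool.Agent.N750.HJ.exists_set'
    refine ⟨E, fun n _ h7 => hE n (by omega), ?_⟩
    intro M₀ _ _
    obtain ⟨e⟩ : Nonempty (M₀ →+* ℂ) := inferInstance
    obtain ⟨C, hC⟩ := h1 (Pool.Agent.N750.HJ.img e) (Pool.Agent.N750.HJ.img_fd e)
    refine ⟨C, fun ι _ _ f hf hne K M F _ _ _ _ _ _ _ _ _ _ hM => ?_⟩
    have hgood := fun i => hC (f i) (hf i).1 (hf i).2.1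
      ((by norm_num : 3 ≤ 7).trans (hf i).2.2.2.1) (hf i).2.2.2.2
    have hcM : CharZero M := charZero_of_injective_algebraMap (algebraMap M₀ M).injective
    have hcF : CharZero F := charZero_of_injective_algebraMap (algebraMap M F).injective
    have hcK : CharZero K := ((algebraMap K M).charZero_iff (algebraMap K M).injective).2 hcM
    have hP : ∀ i, HypP (polyOver K f i) := fun i =>
      Pool.Agent.N750.HJ.hypP_map _ (hf i).2.1 (hf i).2.2.1 (hgood i)
    obtain ⟨d1, d2, d3⟩ := Pool.Agent.N750.HJ.main_data' (K := K) (F := F) hM e f
      (fun i => (hf i).2.1) (fun i => (by norm_num : 5 ≤ 7).trans (hf i).2.2.2.1) hgood hne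
    have hdeg : ∀ i, (polyOver K f i).natDegree = (f i).natDegree := fun i =>
      (hf i).2.1.natDegree_map _
    obtain ⟨ω, hω, h2⟩ := Pool.Agent.N750.HJ.large (K := K) (F := F) (polyOver K f)
      (fun i => by rw [hdeg]; exact (hf i).2.2.2.1) d1 d2
    refine ⟨hP, ω, hω, fun W _ _ τ hτ => h2 W τ ?_⟩
    obtain ⟨d, b, hb, h3⟩ := hτ
    refine ⟨d, b, hb, fun i => ?_⟩
    rcases h3 with h3 | h3
    · right
      obtain ⟨s, hs1, z, hz, hsz⟩ := d3 i
      exact ⟨s, h3 s hs1, z, hz, hsz⟩
    · left
      rw [hdeg]
      exact h3 i
  · intro ι _ n hn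
    exact Pool.Agent.N750.HJ.count_spl n hn

end Pool.Agent.Results.MP_640417_ag.AlmostAllJacobians
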