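import Pool.Agent.N202.TB.Fin2

/-!
# The Tate conjecture for abelian varieties: codimension two on `A^4`, and one power

Let `X` be a polarised smooth projective variety over a finitely generated field of characteristic
zero such that (`OfAbelianType`)

* the Hodge classes on the powers of `X` are Tate classes (Deligne, André: true if `X` is an abelian
  variety, or if the motive of `X` is of abelian type, for example for K3 surfaces);
* the action of the Galois group by conjugation on the endomorphisms of the `ℓ`-adic cohomology of
  `X` is semisimple (Faltings);
* the centre of the Lie algebra of the Hodge group of `X` kills the Tate classes on the powers of `X`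
  (that is, it is contained in the Lie algebra of the image of Galois: Vasiu, Ullmo and Yafaev).

Let `m ≥ 4`. We prove: if the Tate conjecture is true for the power `X^m`, then

* on all powers of `X` the Tate classes are the combinations of the Hodge classes (the Mumford-Tate
  conjecture);
* the Tate conjecture and the Hodge conjecture are equivalent for every power of `X` and for every
  variety whose cohomology comes from powers of `X` by algebraic correspondences;
* if moreover `m ≥ N = (2 b (b² + 1))^(b² + 1)`, `b` the sum of the Betti numbers of `X`, then the
  conjectures of Tate and Hodge are true for all these varieties: **one power** decides.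

For the first two conclusions a part of the Tate conjecture suffices: if the cohomology algebra of
`X` is generated by the classes of degree `i`, or if the Lie algebra of the Hodge group acts
faithfully on the cohomology of degree `i`, then it is enough to consider the cycles of codimension
`2 i` on `X^m`; for abelian varieties `A` the cycles of **codimension two** on `A^4`.

**The setting.** `𝒱`, `ops`: a class of varieties with algebraic cycles; `T`: a Weil cohomology theory
`H` with rational coefficients and a Hodge decomposition of `ℂ ⊗ H` (`X ↦ H(X(ℂ), ℚ)`); `E : Adic T.W`: a
prime `ℓ` and an action of a group `Γ` (the Galois group) on `ℚ_ℓ ⊗ H` with its formal properties.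
`pw X n` is the product of `n + 1` copies of `X`.

**The proof.** Let `𝔥` be the Lie algebra of the Hodge group over `ℚ_ℓ` (the endomorphisms `y` of
`ℚ_ℓ ⊗ H(X)` which kill all Hodge classes on the powers) and `𝔤` the span of the twisted `ℓ`-adic
logarithms `log ρ(u) - (log χ(u) / 2) deg` of the elements `u` of a small open subgroup. A class is
a Tate class if and only if it is killed by `𝔤`; so `𝔤 ⊆ 𝔥`. By semisimplicity there is a projector
`π` of the space of endomorphisms (of the block of degree `i`) onto `𝔤` which commutes with the
adjoint action of `𝔤`. With the polarisation `π` becomes a Tate class on `X^4`. If it is algebraic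
then it is a combination of Hodge classes, so `π` commutes with `𝔥`; hence `𝔤` is an ideal of `𝔥`, and
for `y` in `𝔥` the element `y - π(y)` commutes with `𝔤`. Such an element gives a Tate class on `X^2`
(and on `X^4`), hence it commutes with `𝔥`, and by the assumption on the centre it kills all Tate
classes. So all elements of `𝔥` kill all Tate classes, and then Tate classes are combinations of
Hodge classes. For the last conclusion: the Hodge classes on all powers are generated by the Hodge
classes on `X^N` (by products, pull-backs along coordinate maps and push-forwards), and the Tate
conjecture for `X^m` implies the Hodge conjecture for `X^N`.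
-/

open CategoryTheory AlgebraicGeometry
open Pool.Agent.H914 Pool.Agent.H914.VarClass Pool.Agent.H914.VarClass.Obj
open Pool.Agent.Y121.AHS (HodgeTheory)
open Pool.Agent.Y133.Half (pw)
open Pool.Agent.N202.TB.Ad

universe u

namespace Pool.Agent.Results.MP_640417_ag.CodimensionTwoAndOnePower

/-- **The Tate conjecture for the power `X^m`, `m ≥ 4`** (for abelian varieties: in codimension
two) implies the Mumford-Tate conjecture and the equivalence of the conjectures of Tate and Hodge
for everything built from `X`, and both conjectures if `m` is at least an explicit constant. -/
theorem result {k : Type u} [Field k] {𝒱 : VarClass k} {ops : CycleOps 𝒱} (T : HodgeTheory ops)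
    (E : Adic T.W) (X : 𝒱.Obj) (ψ : Form T.W X) (hψ : IsPolarisation T X ψ)
    (h : OfAbelianType E X) (m : ℕ) (hm : 3 ≤ m)
    (hT : TateConjecture E (pw X m) ∨
      ∃ i, Determines E X i ∧ TateConjectureIn E (pw X m) (2 * i)) :
    (∀ n, MumfordTate E (pw X n)) ∧
      OnPowers E X (fun Y => TateConjecture E Y ↔ HodgeConjecture T Y) ∧
      (TateConjecture E (pw X m) → exponent (totalBetti E X) ≤ m + 1 →
        OnPowers E X fun Y => TateConjecture E Y ∧ HodgeConjecture T Y) :=
  any hψ h hm hT

end Pool.Agent.Results.MP_640417_ag.CodimensionTwoAndOnePower
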