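import Pool.Agent.LB.KillW
import Pool.Agent.N992.TateMain

/-!
# The Tate conjecture in characteristic zero for Fermat varieties of bounded dimension

Let `K` be a field finitely generated over the rational numbers and `X` the Fermat variety
`x_0 ^ m + ... + x_(n+1) ^ m = 0` of even dimension `n` over `K`, or any diagonal hypersurface of
degree `m` and dimension `n`. Over a finite extension of `K` the `ℓ`-adic cohomology of `X` in degree
`n` is the sum of a power of the hyperplane class and of lines `V(s)`, `s` a multiset of `n + 2` nonzero
residues modulo `m` with sum zero (counted with orderings). A Frobenius element at a place above a
prime `p` congruent to one modulo `m` acts on `V(s)` through the power `f` (the residue degree) of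
`± p⁻¹ * ∏ g(χ ^ a)`, `a ∈ s` (Weil; up to a root of unity for a diagonal hypersurface), where `χ` is a
character of order `m` of the field of `p` elements. So if `V(s)` twisted by `n / 2` contains a nonzero
class fixed by an open subgroup of the Galois group then for all but finitely many such `p` a power of
the product of the Gauss sums is a power of `p`. The theorem needs this for ONE prime `p` only.

The lines of the pairs `{a, -a}` and of unions are algebraic by the inductive structure of Fermat
varieties (Shioda, Katsura), those of the Hodge characters with four entries by the theorem of
Lefschetz on `(1, 1)` classes, those of the standard characters by Aoki and Shioda; removing a pair and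
passing from the degree `l * m` to the degree `m` preserve algebraicity (Shioda; the latter by the finite
map `x_i ↦ x_i ^ l`). Two further families:
* the *curve products*: the Hodge characters `b ∪ b'` for which each of `b` and `b'` has three entries
  (and lives on the Fermat curve), or five entries and the Newton simplex of the quotient `W_b` of the
  Fermat threefold by the kernel of `b` has empty Fine interior; then `W_b` is uniruled (Ishii, Batyrev,
  Miyaoka), its `H^3` comes from curves (Bloch, Srinivas) and the theorem of Lefschetz on `(1, 1)`
  classes applies again;
* the *modular characters*: if `V` is the local system on the modular curve given by a representation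
  `ρ` of `PSL(2, ℤ)` with congruence kernel, then the determinant of `H^1(V)` is, up to a Tate twist, the
  Fermat line of the multiset of the nonzero exponents of `ρ (1 1; 0 1)` and of some numbers `1/2`,
  `1/3`, `2/3` at the elliptic points, by an algebraic correspondence (for a rank one local system on a
  curve `C` consider the symmetric power `Sym^d C → Pic^d C`, then use Brauer induction), and `H^1(V)`
  lies in `H^1(X(N))`. The Hodge classes on powers of `X(N)` are algebraic (Hazama, Murty).

The theorem: let `Covered10 m n` hold, that is, let one of the following conditions be satisfied.
* `n ≤ 7`, every degree `m`.
* `n ≤ 13` and the degree `m` is not divisible by 6.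
* `n ≤ 27`, the degree `m` is not divisible by 6 and has no prime factor `q` congruent to 1 modulo 4
  with `29 ≤ q < 2 n + 3`.
* All odd prime factors of `m` exceed `2 n + 5`, any dimension `n`, any power of 2 in `m`; or `m` is odd
  and every prime factor `p` of `m` satisfies `p ^ 2 > 4 n + 9` (the classical condition, for Hodge
  classes, is `p > n + 1` for all prime factors).
* In general one of the numerical conditions `LenCond4 m (n + 2)`; `LenCond m (n + 2)`, `m` odd;
  `LenCond m (2 n + 4)`, `m` twice an odd number (for instance `n ≤ 33` and `m` prime to 6).

Then there is one integer `l > 0` such that every multiset `s` of at most `n + 2` nonzero residues
modulo `m` with sum zero whose Gauss sums satisfy the condition at one prime becomes, in the degree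
`l * m`, a member of the family generated by the base. So all Tate classes on the Fermat varieties, and
on all diagonal hypersurfaces, of these degrees and dimensions are algebraic; the same holds for
products, and for varieties dominated by products of them, with `n + 2` the total number of entries:
for instance for the products of any two surfaces dominated by Fermat surfaces, of any degree (eight
entries), and for all Tate classes of codimension at most 2 on all quotients of products of Jacobians
of Fermat curves of one degree which is not divisible by 6 (four factors, twelve entries).

The proof. The product of the Gauss sums at one prime determines the Stickelberger element, so `s` is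
of Hodge type, and the sum over `s` of every odd distribution with rational values vanishes. The
obstruction to generation lies in the torsion of the universal odd distribution of level `m`. It is
dual to a group with one class for every subset `T` with an even number of elements of the set of the
prime factors of the odd number `m`; the classes of the pairs which are no bad pairs are killed by
members of the base. For every other `T` the class is represented by an explicit distribution modulo 2
(`Pool/Agent/LB/HH.lean`) which vanishes (for squarefree `m`) at all but at most
`2 ^ |P| (|P| - 1)! / (|T| - 1)!` of the elements of `ℤ/m` whose order is the product of `P`, for every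
set `P` of prime factors containing `T`, and at all elements of other orders. If `s` is short then, by
the pigeonhole principle, a Galois translate of the distribution vanishes at all entries of `s`, so the
class does not obstruct `s`. For even degrees see `LB/Ev4.lean`, `LB/EvFin.lean` and the text of
`MP_e12fcd_ag.FermatLengthBound`: one may assume that 8 divides the degree and, in dimension at most 7,
that its prime factors are at most 31; the class of `{4, 3, 5, 7}` and the pairs with 29 are compared
with explicit distributions modulo 2. The same comparison, with the distribution which is 1 at the
points whose order is a power of `p`, gives the clauses `n ≤ 13` and `n ≤ 27` for the degrees not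
divisible by 6 (`LB/KillW.lean`).
-/

namespace Pool.Agent.Results.MP_640417_ag.FermatLengthBound

open Pool.Agent.H916R2 Pool.Agent.N992 Pool.Agent.LB

theorem result (m n : ℕ) [NeZero m] (hm2 : 2 ≤ m) (h : Covered10 m n) :
    ∃ (l : ℕ) (_ : NeZero (l * m)), ∀ s : Multiset (ZMod m), s ≠ 0 → (0 : ZMod m) ∉ s →
      s.sum = 0 → Multiset.card s ≤ n + 2 → OneFrobenius m s →
      Generated (l * m) (FourBase (l * m)) (s.map fun a => ((l * a.val : ℕ) : ZMod (l * m))) := by
  obtain ⟨l, hl, hgen⟩ := lengthBound10 m n h
  refine ⟨l, hl, fun s hne h0 hsum hcard hF => ?_⟩
  obtain ⟨p, hp, χ, ψ, r, k, h1, h2, h3, h4, h5⟩ := hF
  exact hgen s (hodge_of_one_frobenius hm2 h1 h0 hsum h4 h2 h3 h5) hne hcard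

end Pool.Agent.Results.MP_640417_ag.FermatLengthBound
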