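import Pool.Agent.N197.AP.Fin5
import Pool.Agent.N197.AP.L_CONT1
import Pool.Agent.N197.AP.L_CONT2

/-!
# The Tate conjecture at EVERY prime number for the products of 100% of the hyperelliptic Jacobians with any
# variety, over number fields

Let `K` be a number field and let `n i ≥ 7`, `i` in a finite nonempty set, be odd numbers. We consider
the tuples `f` of monic polynomials `f i` over the ring of integers of `K`, of degrees `n i`; `J i` is
the Jacobian of the curve `y ^ 2 = f i (x)`, of dimension `(n i - 1) / 2`. The group `J i (F)`, for an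
algebraically closed field `F`, is the class group of the ring `F[x, y]` of the affine curve (the curve
has one point at infinity), and `V_2 (J i)` is its rational 2-adic Tate module.

Let `L` be a finite extension of `K` and `Z` any pure motive over `L`, for instance `H ^ w` of any smooth
projective variety over `L`. We use only the characteristic polynomials `Q v` of its geometric
Frobenius elements, outside of any finite set `S` of places, their purity, and ONE lattice `τ` over `ℤ_2`. In the
same way `P v` are the characteristic polynomials of the Frobenius elements on the Tate modules of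
the product `A` of the Jacobians `J i` over `L`.

`EveryPrime` means: the `f i` are separable, and for EVERY prime number `ℓ` (and each representation
`V` over `ℚ_ℓ` with the properties of the rational Tate module `V_ℓ (A)`: Frobenius
polynomials `P v`, Weil pairing, semisimplicity) all Tate classes on all powers `A ^ n` with values in the
`ℓ`-adic realization of `Z(c)` are zero in odd degrees, and in even degrees they are linear combinations of
products of Tate classes of degree two on `A ^ n` and Tate classes of `Z` (`ProductsWith`). The Tate classes of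
degree two on abelian varieties are algebraic (Faltings). So the Tate conjecture at `ℓ` for all
`J 1 ^ m 1 × ... × J r ^ m r × Z` is EQUIVALENT to the Tate conjecture for `Z` at `ℓ`, for every `ℓ`; in
particular it holds for all `J 1 ^ m 1 × ... × J r ^ m r`.

**Theorem.** (1) (100% for each `Z`.) For each finite extension `L` of `K` and each `Z` over `L`, `EveryPrime`
is true for 100% of the tuples `f`: the proportion tends to one in all sequences of finite sets of
tuples which are equidistributed modulo all nonzero ideals, for instance boxes.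

The other parts are uniform in `L`, `Z` and `ℓ`. `U` is a finite subset of `Kˣ`, and `f` is called good for
`U` if `EveryPrime` is true for ALL finite extensions `L` of `K` such that

(`Allowed`) the elements of `L` have solvable Galois groups over `K`, or they lie in a normal extension
of `K` over which none of the `f i` splits into linear factors, or in which only the elements of `U`, up
to squares, become squares,

and for ALL motives `Z` over `L` with a stable lattice `τ` of rank `d` over `ℤ_2` such that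

(`Tame`) `(n i)! > 2 ^ (d ^ 2 + 1)` for all `i`, or the Galois group of the extension `L'` of `L` defined by
the action on the lattice modulo 2 is solvable, or each square root of an element `c` of `Kˣ` which is
in `L'` is the square root of an element of `U`, up to factors in `K` (for `K = L = ℚ` this holds if `Z` has
good reduction outside of a finite set of primes and `U` is the set of the numbers `± ∏ p`, `p` in
this set or `p = 2`).

(2) (Congruences.) For all `U` and `η > 0` there is a nonzero ideal `M` such that for a proportion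
of at least `1 - η` of the residue classes modulo `M` of tuples, ALL tuples in the class are good for `U`.

(3) (One exceptional set.) For equidistributed sets of tuples as in (1) there are finite sets `V 0`, `V 1`, ...
of elements of `Kˣ` such that each element of `Kˣ` is in `V t` for all large `t`, and the proportion of the
tuples in `B t` which are good for `V t` tends to one.

There is no hypothesis on Galois groups, on the reduction of the curves, on Frobenius elements, or
on `Z`. Up to now this was known for `ℓ = 2` only (`AlmostAllHyperelliptic`, `MP_0fca13_ag`).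

Proof. A sieve gives large Galois groups of the tuples, so that the image of the Galois group on the
2-adic Tate modules and `τ` contains (Lie algebra) the product of the symplectic algebras with
component zero on `Z`. All multiplicative relations between the Frobenius eigenvalues of `A` and one
eigenvalue of `Z` come from a finite list (Serre); by Chebotarev there are Frobenius elements which are
2-adically so close to `1 + 2 ^ k X` and to `1` on `Z` that no relation of the list holds; one such
Frobenius element determines the Tate classes at `ℓ`.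
-/

set_option autoImplicit false

namespace Pool.Agent.Results.MP_640417_ag.HyperellipticEveryPrime

open Matrix Polynomial Filter Topology NumberField IsDedekindDomain
open Pool.Agent.N171 (HypP JacP Vt vRep)
open Pool.Agent.N166.CZ (IsTateModule ProductsWith)
open scoped Classical

/-- the absolute Galois group, with the profinite (Krull) topology -/
abbrev AbsoluteGaloisGroup (L : Type) [Field L] : Type := Gal(AlgebraicClosure L/L)

/-- `σ` is an (arithmetic) Frobenius element at the prime `v` of `L`: there is a maximal ideal `Q` above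
`v` of the ring of all algebraic integers with `σ x ≡ x ^ N(v)` modulo `Q` for all `x` -/
def IsFrobenius {L : Type} [Field L] [NumberField L] (v : HeightOneSpectrum (𝓞 L))
    (σ : AbsoluteGaloisGroup L) : Prop :=
  ∃ Q : Ideal (𝓞 (AlgebraicClosure L)), Q.IsMaximal ∧
    Q.comap (algebraMap (𝓞 L) (𝓞 (AlgebraicClosure L))) = v.asIdeal ∧
    ∀ x : 𝓞 (AlgebraicClosure L), σ • x - x ^ Ideal.absNorm v.asIdeal ∈ Q

/-- The roots of the rational polynomial `P` are Weil numbers of weight `w` for the place `v`, and become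
integral after multiplication by `q ^ m`, with `q` the number of elements of the residue field. -/
def IsWeil {L : Type} [Field L] [NumberField L] (v : HeightOneSpectrum (𝓞 L)) (w : ℤ) (m : ℕ)
    (P : ℚ[X]) : Prop :=
  ∀ z : ℂ, aeval z P = 0 → ‖z‖ ^ 2 = (Ideal.absNorm v.asIdeal : ℝ) ^ w ∧
    IsIntegral ℤ ((Ideal.absNorm v.asIdeal : ℂ) ^ m * z)

/-- the representation on the column vectors -/
noncomputable def matRep {k G : Type} [Field k] [Group G] {n : ℕ}
    (r : G →* Matrix (Fin n) (Fin n) k) : Representation k G (Fin n → k) :=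
  ((Matrix.toLinAlgEquiv' (R := k) (n := Fin n)).toAlgHom.toRingHom.toMonoidHom).comp r

/-- the realization `s` over `ℚ_ℓ` has the Frobenius polynomials `Q v` (of the geometric Frobenius
elements `σ⁻¹`) -/
def HasFrobenius {L : Type} [Field L] [NumberField L] (S : Set (HeightOneSpectrum (𝓞 L)))
    (Q : HeightOneSpectrum (𝓞 L) → ℚ[X]) (ℓ : ℕ) [Fact ℓ.Prime] {M : Type} [AddCommGroup M]
    [Module ℚ_[ℓ] M] [FiniteDimensional ℚ_[ℓ] M]
    (s : Representation ℚ_[ℓ] (AbsoluteGaloisGroup L) M) : Prop :=
  ∀ v ∉ S, (ℓ : 𝓞 L) ∉ v.asIdeal → ∀ σ : AbsoluteGaloisGroup L, IsFrobenius v σ →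
    LinearMap.charpoly (s σ⁻¹) = (Q v).map (Rat.castHom ℚ_[ℓ])

/-- the matrices `R g` describe the representation on the product of the spaces `V i` in some basis -/
def IsMatrixOf {G : Type} [Group G] {ι : Type} {V : ι → Type} [∀ i, AddCommGroup (V i)]
    [∀ i, Module ℚ_[2] (V i)] (ρ : ∀ i, Representation ℚ_[2] G (V i)) {n : ℕ}
    (R : G →* Matrix (Fin n) (Fin n) ℚ_[2]) : Prop :=
  ∃ E : (Fin n → ℚ_[2]) ≃ₗ[ℚ_[2]] (∀ i, V i), ∀ g x i, E (R g *ᵥ x) i = ρ i g (E x i)

/-- The 2-adic representation on `V_2 (J 1) ⊕ ... ⊕ V_2 (J r)` has the Frobenius polynomials `P v`, `v` not in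
`S`: in a basis of this space the matrix of the (arithmetic) Frobenius elements at `v` has
the characteristic polynomial `P v`. -/
def JacobianFrobenius {L : Type} [Field L] [NumberField L] {ι : Type} (f : ι → L[X])
    [∀ i, HypP (f i)] (S : Set (HeightOneSpectrum (𝓞 L)))
    (P : HeightOneSpectrum (𝓞 L) → ℚ[X]) : Prop :=
  ∃ (n : ℕ) (R : AbsoluteGaloisGroup L →* Matrix (Fin n) (Fin n) ℚ_[2]),
    IsMatrixOf (fun i => vRep (JacP (f i) (AlgebraicClosure L)) (AbsoluteGaloisGroup L)) R ∧
    ∀ v ∉ S, (2 : 𝓞 L) ∉ v.asIdeal → ∀ σ : AbsoluteGaloisGroup L, IsFrobenius v σ →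
      (R σ).charpoly = (P v).map (Rat.castHom ℚ_[2])

/-- `V` has the properties of the rational Tate module over `ℚ_ℓ` of an abelian variety with the Frobenius
polynomials `P v`: a nondegenerate alternating form which is multiplied by `χ`, semisimplicity over
all finite extensions, and `χ` is the cyclotomic character -/
def IsTateModuleWith {L : Type} [Field L] [NumberField L] (S : Set (HeightOneSpectrum (𝓞 L)))
    (P : HeightOneSpectrum (𝓞 L) → ℚ[X]) (ℓ : ℕ) [Fact ℓ.Prime] {V : Type} [AddCommGroup V]
    [Module ℚ_[ℓ] V] [FiniteDimensional ℚ_[ℓ] V]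
    (r : Representation ℚ_[ℓ] (AbsoluteGaloisGroup L) V) (χ : AbsoluteGaloisGroup L →* ℚ_[ℓ]) :
    Prop :=
  IsTateModule r χ ∧ ∀ v ∉ S, (ℓ : 𝓞 L) ∉ v.asIdeal → ∀ σ : AbsoluteGaloisGroup L,
    IsFrobenius v σ → χ σ = (Ideal.absNorm v.asIdeal : ℚ_[ℓ]) ∧
      LinearMap.charpoly (r σ) = (P v).map (Rat.castHom ℚ_[ℓ])

/-- The Tate classes at the prime number `ℓ` on the powers of the abelian variety with the Frobenius
polynomials `P v`, with values in the motive with the Frobenius polynomials `Q v`. -/
def AtPrime {L : Type} [Field L] [NumberField L] (S : Set (HeightOneSpectrum (𝓞 L)))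
    (P Q : HeightOneSpectrum (𝓞 L) → ℚ[X]) (ℓ : ℕ) [Fact ℓ.Prime] : Prop :=
  ∀ (V M : Type) [AddCommGroup V] [Module ℚ_[ℓ] V] [FiniteDimensional ℚ_[ℓ] V] [AddCommGroup M]
    [Module ℚ_[ℓ] M] [FiniteDimensional ℚ_[ℓ] M]
    (r : Representation ℚ_[ℓ] (AbsoluteGaloisGroup L) V) (χ : AbsoluteGaloisGroup L →* ℚ_[ℓ])
    (s : Representation ℚ_[ℓ] (AbsoluteGaloisGroup L) M),
    IsTateModuleWith S P ℓ r χ → HasFrobenius S Q ℓ s → ProductsWith r χ s

/-- **Tate classes at every prime number** on all products of powers of the Jacobians of the curves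
`y ^ 2 = f i (x)` with `Z`, where `Z` is any pure motive whose 2-adic realization is `τ`. -/
def EveryPrime {L : Type} [Field L] [NumberField L] {ι : Type} (f : ι → L[X]) {d : ℕ}
    (τ : AbsoluteGaloisGroup L →* Matrix (Fin d) (Fin d) ℚ_[2]) : Prop :=
  ∃ _ : ∀ i, HypP (f i), ∀ (S : Set (HeightOneSpectrum (𝓞 L))) (m : ℕ) (w : ℤ)
    (P Q : HeightOneSpectrum (𝓞 L) → ℚ[X]),
    S.Finite → (∀ v ∉ S, IsWeil v 1 m (P v) ∧ IsWeil v w m (Q v)) →
    JacobianFrobenius f S P → HasFrobenius S Q 2 (matRep τ) →
    ∀ (ℓ : ℕ) [Fact ℓ.Prime], AtPrime S P Q ℓ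

/-- the matrices are continuous functions, with coefficients in `ℤ_2` -/
def IsLattice {L : Type} [Field L] {d : ℕ}
    (τ : AbsoluteGaloisGroup L →* Matrix (Fin d) (Fin d) ℚ_[2]) : Prop :=
  Continuous τ ∧ ∀ g a b, ‖τ g a b‖ ≤ 1

/-- the matrix `τ s` is congruent to `1` modulo two -/
def TrivialModTwo {L : Type} [Field L] {d : ℕ}
    (τ : AbsoluteGaloisGroup L →* Matrix (Fin d) (Fin d) ℚ_[2]) (s : AbsoluteGaloisGroup L) : Prop :=
  ∀ a b, ‖(τ s - 1) a b‖ < 1

/-- The tuple of the monic polynomials with the coefficients `y`: the polynomial `i` is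
`X ^ n i + ∑ j < n i, y (i, j) X ^ j`. -/
noncomputable def poly {K : Type} [Field K] {ι : Type} {n : ι → ℕ}
    (y : (Σ i, Fin (n i)) → 𝓞 K) (i : ι) : K[X] :=
  X ^ n i + ∑ j : Fin (n i), C (algebraMap (𝓞 K) K (y ⟨i, j⟩)) * X ^ (j : ℕ)

/-- The elements of `L` have solvable Galois groups over `K`, or lie in a normal extension over which
none of the polynomials `f i` splits, or in which the only elements of `K` which become squares are
those of `U`, up to squares. -/
def Allowed {K : Type} [Field K] (L : Type) [Field L] [Algebra K L] (U : Finset Kˣ) {ι : Type}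
    (f : ι → K[X]) : Prop :=
  (∀ x : L, Group.IsSolvable (minpoly K x).Gal) ∨
  ∃ M : IntermediateField K (AlgebraicClosure L), Normal K M ∧
    (∀ x : L, algebraMap L (AlgebraicClosure L) x ∈ M) ∧
    ((∀ i, ¬ ((f i).map (algebraMap K M)).Splits) ∨
      ∀ c : Kˣ, (∃ δ ∈ M, δ ^ 2 = algebraMap K (AlgebraicClosure L) c) → ∃ u ∈ U, IsSquare (c * u))

/-- The conditions on the lattice of `Z`, which do not depend on the polynomials: `(n i)! > 2 ^ (d ^ 2 + 1)`
with `d` the rank, or the image of the Galois group modulo 2 is solvable, or the elements of `K`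
which become squares in the extension defined by the action on the lattice modulo 2 are in `U`, up to
squares. -/
def Tame {K L : Type} [Field K] [Field L] [Algebra K L] {ι : Type} (n : ι → ℕ) (U : Finset Kˣ)
    {d : ℕ} (τ : AbsoluteGaloisGroup L →* Matrix (Fin d) (Fin d) ℚ_[2]) : Prop :=
  (∀ i, 2 ^ (d ^ 2 + 1) < (n i).factorial) ∨
  (∃ m : ℕ, ∀ s ∈ derivedSeries (AbsoluteGaloisGroup L) m, TrivialModTwo τ s) ∨
  ∀ c : Kˣ, (∀ δ : AlgebraicClosure L, δ ^ 2 = algebraMap K (AlgebraicClosure L) c →
    ∀ s, TrivialModTwo τ s → s δ = δ) → ∃ u ∈ U, IsSquare (c * u)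

/-- The good tuples of polynomials. -/
def Good {K : Type} [Field K] [NumberField K] {ι : Type} (n : ι → ℕ) (U : Finset Kˣ)
    (f : ι → K[X]) : Prop :=
  ∀ (L : Type) [Field L] [NumberField L] [Algebra K L], Allowed L U f →
    ∀ (d : ℕ) (τ : AbsoluteGaloisGroup L →* Matrix (Fin d) (Fin d) ℚ_[2]), IsLattice τ →
      Tame n U τ → EveryPrime (fun i => (f i).map (algebraMap K L)) τ

/-- The tuple `y` is in the residue class `z`. -/
def InClass {R σ : Type} [CommRing R] {M : Ideal R} (y : σ → R) (z : σ → R ⧸ M) : Prop :=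
  ∀ j, Ideal.Quotient.mk M (y j) = z j

/-- A sequence of nonempty finite sets of tuples which is equidistributed modulo each ideal with finite
quotient. -/
def Equidistributed {R σ : Type} [CommRing R] [Fintype σ] (B : ℕ → Finset (σ → R)) : Prop :=
  (∀ t, (B t).Nonempty) ∧ ∀ M : Ideal R, Finite (R ⧸ M) → ∀ z : σ → R ⧸ M,
    Tendsto (fun t => (((B t).filter (fun y => InClass y z)).card : ℝ) / ((B t).card : ℝ)) atTop
      (𝓝 (1 / (Nat.card (R ⧸ M) : ℝ) ^ Fintype.card σ))

/-- The proportion of the tuples `y` in `B t` with the property `P t y` tends to one. -/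
def AlmostAll {R σ : Type} (B : ℕ → Finset (σ → R)) (P : ℕ → (σ → R) → Prop) : Prop :=
  Tendsto (fun t => (((B t).filter (P t)).card : ℝ) / ((B t).card : ℝ)) atTop (𝓝 1)

theorem everyPrime_of_gd {L : Type} [Field L] [NumberField L] {ι : Type} [Fintype ι] [Nonempty ι]
    (f : ι → L[X]) (hf : ∀ i, HypP (f i)) {d : ℕ}
    (τ : AbsoluteGaloisGroup L →* Matrix (Fin d) (Fin d) ℚ_[2]) (hτ : Continuous τ)
    (hGD : Pool.Agent.N197.AP.GD f (Pool.Agent.N197.AP.matRep τ)) : EveryPrime f τ := by
  refine ⟨hf, fun S m w P Q hS hPQ hJ hτQ ℓ _ V M _ _ _ _ _ _ r χ s hr h2 => ?_⟩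
  have h1 := hr.2
  obtain ⟨n, R, ⟨E, hE⟩, hRP⟩ := hJ
  have hR : Continuous R := Pool.Agent.N197.AP.t_CONT2 L (AlgebraicClosure L) ι f
    (fun i x => Pool.Agent.N197.AP.t_CONT1 L (AlgebraicClosure L) (f i) x) n R E hE
  refine Pool.Agent.N197.AP.holds_of_gd f τ hτ hGD S hS P Q (fun v hv z hz => ?_)
    (fun v hv z hz => (hPQ v hv).2 z hz) R hR E hE hRP (fun v hv hv2 σ hσ => ?_) ℓ V M r χ s hr.1
    (fun v hv hvℓ σ hσ => ⟨(h1 v hv hvℓ σ hσ).1, (h1 v hv hvℓ σ hσ).2, h2 v hv hvℓ σ hσ⟩)
  · have h3 := (hPQ v hv).1 z hz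
    rwa [zpow_one] at h3
  · have h3 := hτQ v hv (by rwa [Nat.cast_ofNat]) σ hσ
    rw [← h3]
    exact (Matrix.charpoly_toLin' (τ σ⁻¹)).symm

/-- **The Tate conjecture at every prime number for the products of 100% of the hyperelliptic Jacobians
with any variety, over number fields.** -/
theorem result {K : Type} [Field K] [NumberField K] {ι : Type} [Fintype ι] [Nonempty ι]
    (n : ι → ℕ) (h7 : ∀ i, 7 ≤ n i) (ho : ∀ i, Odd (n i)) :
    (∀ B : ℕ → Finset ((Σ i, Fin (n i)) → 𝓞 K), Equidistributed B →
      ∀ (L : Type) [Field L] [NumberField L] [Algebra K L] (d : ℕ)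
        (τ : AbsoluteGaloisGroup L →* Matrix (Fin d) (Fin d) ℚ_[2]), IsLattice τ →
        AlmostAll B fun _ y => EveryPrime (fun i => (poly y i).map (algebraMap K L)) τ) ∧
    (∀ (U : Finset Kˣ) (η : ℝ), 0 < η → ∃ M : Ideal (𝓞 K), Finite (𝓞 K ⧸ M) ∧
      (1 - η) * (Nat.card ((Σ i, Fin (n i)) → 𝓞 K ⧸ M) : ℝ) ≤
        (Nat.card {z : (Σ i, Fin (n i)) → 𝓞 K ⧸ M //
          ∀ y : (Σ i, Fin (n i)) → 𝓞 K, InClass y z → Good n U (poly y)} : ℝ)) ∧
    ∀ B : ℕ → Finset ((Σ i, Fin (n i)) → 𝓞 K), Equidistributed B →
      ∃ V : ℕ → Finset Kˣ, (∀ u : Kˣ, ∀ᶠ t in atTop, u ∈ V t) ∧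
        AlmostAll B fun t y => Good n (V t) (poly y) := by
  have hfield : ¬ IsField (𝓞 K) := NumberField.RingOfIntegers.not_isField K
  have hG : ∀ (U : Finset Kˣ) (f : ι → K[X]), Pool.Agent.N197.AP.LIM.Gd n U f → Good n U f := by
    intro U f h L _ _ _ hA d τ hlat hτ
    have hA' : Pool.Agent.N197.Htj.Allowed L (AlgebraicClosure L) U f := by
      rcases hA with hA | ⟨M, hM1, hM2, hM3⟩
      · exact Or.inl fun x _ => hA x
      · exact Or.inr ⟨M, hM1, fun x _ => hM2 x, hM3⟩
    have hT : Pool.Agent.N197.Htj.Tame n U (Pool.Agent.N197.AP.matRep τ) := by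
      refine ⟨d, Pi.basisFun ℚ_[2] (Fin d),
        fun s => Pool.Agent.N197.AP.trivMod_int τ hlat.2 s, ?_⟩
      rcases hτ with h1 | ⟨m, h1⟩ | h1
      · exact Or.inl h1
      · exact Or.inr (Or.inl ⟨m, fun s hs =>
          (Pool.Agent.N197.AP.trivMod_one_iff τ s).2 (h1 s hs)⟩)
      · exact Or.inr (Or.inr fun c hc => h1 c fun δ hδ s hs =>
          hc δ hδ s ((Pool.Agent.N197.AP.trivMod_one_iff τ s).2 hs))
    obtain ⟨h1, h2⟩ := h L (AlgebraicClosure L) hA' (Fin d → ℚ_[2])
      (Pool.Agent.N197.AP.matRep τ) hT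
    exact everyPrime_of_gd _ h1 τ hlat.1 h2
  refine ⟨fun B hB L _ _ _ d τ hlat => ?_, fun U η hη => ?_, fun B hB => ?_⟩
  · have : FiniteDimensional K L := Module.Finite.of_restrictScalars_finite ℚ K L
    have h := Pool.Agent.N197.AP.t_LIM (𝓞 K) K ι n hfield two_ne_zero h7 ho L (AlgebraicClosure L)
      (Fin d → ℚ_[2]) (Pool.Agent.N197.AP.matRep τ)
      ⟨d, Pi.basisFun ℚ_[2] (Fin d), fun s => Pool.Agent.N197.AP.trivMod_int τ hlat.2 s⟩ B hB.1
      (fun M hM x => by
        have h1 := hB.2 M hM x
        unfold InClass at h1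
        convert h1)
    refine tendsto_of_tendsto_of_tendsto_of_le_of_le h tendsto_const_nhds (fun t => ?_) fun t => ?_
    · have h0 : (0 : ℝ) < ((B t).card : ℝ) := by exact_mod_cast (hB.1 t).card_pos
      apply div_le_div_of_nonneg_right _ h0.le
      refine Nat.cast_le.2 (Finset.card_le_card fun y hy => ?_)
      rw [Finset.mem_filter] at hy ⊢
      obtain ⟨h3, h4, h5⟩ := hy
      exact ⟨h3, everyPrime_of_gd _ h4 τ hlat.1 h5⟩
    · have h0 : (0 : ℝ) < ((B t).card : ℝ) := by exact_mod_cast (hB.1 t).card_pos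
      show _ / _ ≤ (1 : ℝ)
      rw [div_le_one h0]
      exact_mod_cast Finset.card_filter_le _ _
  · obtain ⟨M, hM, h⟩ := Pool.Agent.N197.AP.LIM.dens_gd (𝓞 K) K n hfield two_ne_zero h7 ho U η hη
    refine ⟨M, hM, ?_⟩
    have := hM
    have := Fintype.ofFinite (𝓞 K ⧸ M)
    have h1 : Nat.card ((Σ i, Fin (n i)) → 𝓞 K ⧸ M) =
        Nat.card (𝓞 K ⧸ M) ^ Fintype.card (Σ i, Fin (n i)) := by
      rw [Nat.card_eq_fintype_card, Nat.card_eq_fintype_card, Fintype.card_fun]
    rw [h1, Nat.cast_pow]
    refine h.trans ?_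
    rw [← Nat.card_coe_set_eq]
    have h3 : Nat.card {z : (Σ i, Fin (n i)) → 𝓞 K ⧸ M | ∀ y : (Σ i, Fin (n i)) → 𝓞 K,
        (∀ j, Ideal.Quotient.mk M (y j) = z j) →
          Pool.Agent.N197.AP.LIM.Gd n U (Pool.Agent.N197.Htj.poly K y)} ≤
        Nat.card {z : (Σ i, Fin (n i)) → 𝓞 K ⧸ M |
          ∀ y : (Σ i, Fin (n i)) → 𝓞 K, InClass y z → Good n U (poly y)} := by
      refine Nat.card_mono (Set.toFinite _) fun z hz y hy => ?_
      exact hG U _ (hz y hy)
    exact_mod_cast h3
  · obtain ⟨V, hV, h⟩ := Pool.Agent.N197.AP.lim_gd (𝓞 K) K n hfield two_ne_zero h7 ho B hB.1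
      (fun M hM x => by
        have h1 := hB.2 M hM x
        unfold InClass at h1
        convert h1)
    refine ⟨V, hV, tendsto_of_tendsto_of_tendsto_of_le_of_le h tendsto_const_nhds (fun t => ?_)
      fun t => ?_⟩
    · have h0 : (0 : ℝ) < ((B t).card : ℝ) := by exact_mod_cast (hB.1 t).card_pos
      apply div_le_div_of_nonneg_right _ h0.le
      refine Nat.cast_le.2 (Finset.card_le_card fun y hy => ?_)
      rw [Finset.mem_filter] at hy ⊢
      exact ⟨hy.1, hG _ _ hy.2⟩
    · have h0 : (0 : ℝ) < ((B t).card : ℝ) := by exact_mod_cast (hB.1 t).card_pos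
      show _ / _ ≤ (1 : ℝ)
      rw [div_le_one h0]
      exact_mod_cast Finset.card_filter_le _ _

end Pool.Agent.Results.MP_640417_ag.HyperellipticEveryPrime
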